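import Mathlib
import Pool.Agent.W993.MC.Stm

/-! # Project MC, part OM: the primitive sixth root of unity -/

set_option autoImplicit false

namespace Pool.Agent.W561.MC

open Pool.Agent.W993.MC

theorem omega_eq : omega = Complex.exp ((Real.pi / 3 : ℝ) * Complex.I) := by
  unfold omega
  congr 1
  push_cast
  ring

theorem omega_val : omega = 1 / 2 + (Real.sqrt 3 / 2 : ℝ) * Complex.I := by
  rw [omega_eq, Complex.exp_mul_I, ← Complex.ofReal_cos, ← Complex.ofReal_sin,
    Real.cos_pi_div_three, Real.sin_pi_div_three]
  push_cast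
  ring

theorem one_sub_omega : 1 - omega = Complex.exp (((-(Real.pi / 3) : ℝ) : ℂ) * Complex.I) := by
  rw [omega_val, Complex.exp_mul_I, ← Complex.ofReal_cos, ← Complex.ofReal_sin,
    Real.cos_neg, Real.sin_neg, Real.cos_pi_div_three, Real.sin_pi_div_three]
  push_cast
  ring

theorem s_om : S_OM := by
  refine ⟨?_, ?_, ?_, ?_⟩
  · rw [omega_eq]
    exact Complex.norm_exp_ofReal_mul_I _
  · intro h
    have h2 := congrArg Complex.re h
    rw [omega_val] at h2
    simp at h2
  · rw [omega, ← Complex.exp_nat_mul]
    have : ((6 : ℕ) : ℂ) * (Real.pi * Complex.I / 3) = 2 * Real.pi * Complex.I := by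
      push_cast; ring
    rw [this, Complex.exp_two_pi_mul_I]
  · have hpi := Real.pi_pos
    rw [one_sub_omega, Complex.log_exp]
    · push_cast; ring
    · simp only [Complex.mul_im, Complex.ofReal_re, Complex.I_im, Complex.ofReal_im, Complex.I_re]
      linarith
    · simp only [Complex.mul_im, Complex.ofReal_re, Complex.I_im, Complex.ofReal_im, Complex.I_re]
      linarith

end Pool.Agent.W561.MC
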